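import Mathlib
import Pool.Agent.W912.SE.Defs

/-! The numerical statement S_NUMF of project SE (owner helper912). -/

namespace Pool.Agent.W797.SE

open Filter

theorem numf : Pool.Agent.W912.SE.S_NUMF := by
  intro f hf h B n₁ hh
  have hhR : (1 : ℝ) ≤ (h : ℝ) := by exact_mod_cast hh
  obtain ⟨C, hC⟩ : ∃ C : ℕ, C = B + 1 := ⟨_, rfl⟩
  have hC1 : 1 ≤ C := by omega
  have hCR : (1 : ℝ) ≤ (C : ℝ) := by exact_mod_cast hC1
  have hpos : (0 : ℝ) < 4 * h * C := by positivity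
  obtain ⟨n₂, hn₂⟩ : ∃ n₂ : ℕ, n₂ = max n₁ (4 * h) := ⟨_, rfl⟩
  have h12 : n₁ ≤ n₂ := by omega
  have h42 : 4 * h ≤ n₂ := by omega
  obtain ⟨N, hfN, hN⟩ := ((hf (1 / (4 * h * C)) (by positivity)).and_eventually
    (eventually_ge_atTop (2 ^ (2 ^ (C * n₂) + 1)))).exists
  have hex : ∃ n : ℕ, N < 2 ^ (2 ^ (C * (n + 1)) + 1) := by
    refine ⟨N, ?_⟩
    calc N < 2 ^ N := Nat.lt_two_pow_self
      _ ≤ 2 ^ (2 ^ (C * (N + 1)) + 1) := by
        apply Nat.pow_le_pow_right (by norm_num)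
        have h1 : N < 2 ^ N := Nat.lt_two_pow_self
        have h2 : 2 ^ N ≤ 2 ^ (C * (N + 1)) :=
          Nat.pow_le_pow_right (by norm_num) (by nlinarith)
        omega
  classical
  obtain ⟨n, hn, hmin⟩ : ∃ n : ℕ, N < 2 ^ (2 ^ (C * (n + 1)) + 1) ∧
      ∀ m < n, ¬ N < 2 ^ (2 ^ (C * (m + 1)) + 1) :=
    ⟨Nat.find hex, Nat.find_spec hex, fun m hm => Nat.find_min hex hm⟩
  have hn2n : n₂ ≤ n := by
    by_contra hlt
    have h3 : n + 1 ≤ n₂ := by omega
    have h4 : 2 ^ (2 ^ (C * (n + 1)) + 1) ≤ 2 ^ (2 ^ (C * n₂) + 1) := by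
      apply Nat.pow_le_pow_right (by norm_num)
      have h5 : 2 ^ (C * (n + 1)) ≤ 2 ^ (C * n₂) :=
        Nat.pow_le_pow_right (by norm_num) (Nat.mul_le_mul_left C h3)
      omega
    omega
  have hn0 : 0 < n := by omega
  have hlow : 2 ^ (2 ^ (C * n) + 1) ≤ N := by
    have h6 := hmin (n - 1) (by omega)
    have h7 : n - 1 + 1 = n := by omega
    rw [h7] at h6
    omega
  refine ⟨n, by omega, N, ?_, ?_⟩
  · refine le_trans ?_ hlow
    apply Nat.pow_le_pow_right (by norm_num)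
    have h8 : 2 ^ (B * n) ≤ 2 ^ (C * n) :=
      Nat.pow_le_pow_right (by norm_num) (Nat.mul_le_mul_right n (by omega))
    omega
  · refine le_trans hfN ?_
    have hNpos : 0 < N := lt_of_lt_of_le (by positivity) hlow
    have hNR : (0 : ℝ) < (N : ℝ) := by exact_mod_cast hNpos
    have hN1 : (1 : ℝ) ≤ (N : ℝ) := by exact_mod_cast hNpos
    -- the logarithm
    have hlog0 : 0 ≤ Real.logb 2 (N : ℝ) := Real.logb_nonneg (by norm_num) hN1
    have hlog : Real.logb 2 (N : ℝ) ≤ (2 : ℝ) ^ ((C * (n + 1) + 1 : ℕ) : ℝ) := by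
      have h9 : (N : ℝ) ≤ (2 : ℝ) ^ (((2 ^ (C * (n + 1)) + 1 : ℕ)) : ℝ) := by
        rw [Real.rpow_natCast]
        exact_mod_cast hn.le
      have h10 : Real.logb 2 (N : ℝ) ≤ ((2 ^ (C * (n + 1)) + 1 : ℕ) : ℝ) := by
        rw [Real.logb_le_iff_le_rpow (by norm_num) hNR]
        exact h9
      refine le_trans h10 ?_
      rw [Real.rpow_natCast]
      have h11 : 2 ^ (C * (n + 1)) + 1 ≤ 2 ^ (C * (n + 1) + 1) := by
        have : 1 ≤ 2 ^ (C * (n + 1)) := Nat.one_le_two_pow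
        rw [pow_succ]
        omega
      exact_mod_cast h11
    -- the exponent
    obtain ⟨q, hq⟩ : ∃ q : ℕ, q = n / h := ⟨_, rfl⟩
    have hq4 : 4 ≤ q := by
      rw [hq, Nat.le_div_iff_mul_le (by omega)]
      omega
    have hnq : n < h * (q + 1) := by
      rw [hq]
      exact Nat.lt_mul_div_succ n (by omega)
    have hexp : (((C * (n + 1) + 1 : ℕ)) : ℝ) * (1 / (4 * h * C)) ≤ ((q - 2 : ℕ) : ℝ) := by
      rw [mul_one_div, div_le_iff₀ hpos]
      have h12 : C * (n + 1) + 1 ≤ (q - 2) * (4 * h * C) := by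
        have h13 : C * (n + 1) + 1 ≤ C * (n + 2) := by nlinarith
        have h14 : n + 2 ≤ (q - 2) * (4 * h) := by
          obtain ⟨r, rfl⟩ : ∃ r, q = r + 4 := ⟨q - 4, by omega⟩
          have h15 : r + 4 - 2 = r + 2 := by omega
          rw [h15]
          nlinarith
        calc C * (n + 1) + 1 ≤ C * (n + 2) := h13
          _ ≤ C * ((q - 2) * (4 * h)) := Nat.mul_le_mul_left C h14
          _ = (q - 2) * (4 * h * C) := by ring
      exact_mod_cast h12
    have hfin : (Real.logb 2 (N : ℝ)) ^ (1 / (4 * (h : ℝ) * C)) ≤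
        ((2 ^ (n / h) / 2 - 1 : ℕ) : ℝ) := by
      calc (Real.logb 2 (N : ℝ)) ^ (1 / (4 * (h : ℝ) * C))
          ≤ ((2 : ℝ) ^ ((C * (n + 1) + 1 : ℕ) : ℝ)) ^ (1 / (4 * (h : ℝ) * C)) :=
            Real.rpow_le_rpow hlog0 hlog (by positivity)
        _ = (2 : ℝ) ^ ((((C * (n + 1) + 1 : ℕ)) : ℝ) * (1 / (4 * h * C))) := by
            rw [← Real.rpow_mul (by norm_num)]
        _ ≤ (2 : ℝ) ^ (((q - 2 : ℕ)) : ℝ) :=
            Real.rpow_le_rpow_of_exponent_le (by norm_num) hexp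
        _ = ((2 ^ (q - 2) : ℕ) : ℝ) := by
            rw [Real.rpow_natCast]
            push_cast
            rfl
        _ ≤ ((2 ^ (n / h) / 2 - 1 : ℕ) : ℝ) := by
            have h16 : 2 ^ (q - 2) ≤ 2 ^ (n / h) / 2 - 1 := by
              rw [← hq]
              obtain ⟨r, rfl⟩ : ∃ r, q = r + 2 := ⟨q - 2, by omega⟩
              have h17 : r + 2 - 2 = r := by omega
              have h18 : 1 ≤ 2 ^ r := Nat.one_le_two_pow
              rw [h17, pow_add]
              omega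
            exact_mod_cast h16
    rw [← Real.rpow_natCast]
    exact Real.rpow_le_rpow_of_exponent_le (by norm_num) hfin

end Pool.Agent.W797.SE
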